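import Pool.Agent.X208.BR.Sou

/-!
# Soulé's formula: the defects over the layers of elementary abelian extensions

Let `X` be smooth and projective over the ring of integers of the number field `K`, of Krull dimension `d`,
and `X_{K'}` its base change to the ring of integers of a finite extension `K'` of `K`, a scheme as in the
problem. Let `ordz K' = ord_{s=0} ζ(X_{K'}, s)`, `chi K' = ∑ (-1)^{i+1} dim H^{2d-i}(X_{K'}, ℚ(d))`, so that
Soulé's formula for `X_{K'}` is `ordz K' = chi K'`, and let `defect K' = |ordz K' - chi K'|`. The only input are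
the Brauer relations (`ZetaOrders`). Let `M/K` be Galois with elementary abelian group of exponent `p` and order
`p^k` (any prime `p`, ramification allowed); the `j`-th layer is the set of the fields `K ⊂ K' ⊂ M` of degree
`p^j` over `K`.

1. The defect over `K` is at most the mean defect over the `j`-th layer, up to `p^{j-k}`:
   `(1 - p^{j-k}) defect K ≤ mean + p^{j-k} defect M`.
2. If the formula fails for `X` then of two layers `j < k` of `M` at least one contains a field `K'` for
   which it fails for `X_{K'}`; the proportions satisfy `N x_j + x_k ≥ 1`, `N` the number of the fields of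
   degree `p^j` in a field of degree `p^k`.
3. So Soulé's formula for `X` follows from the formula for the `X_{K'}`, `K'` in two layers (and even in more
   than `N/(N+1)` of the fields of each of the two layers).
-/

set_option autoImplicit false

namespace Pool.Agent.Results.MP_f3836a_nt.AlmostAllFields

open Pool.Agent.X208.BR.Pk

/-- **Soulé's formula over the layers of elementary abelian extensions.** -/
theorem result (K : Fld) (X : ZetaOrders K) (p : ℕ) (hp : p.Prime) (M : Fld)
    (hM : IsElementary p K M) :
    -- 1. the defect over `K` and the mean defect over a layer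
    (∀ j k : ℕ, j < k → deg M = p ^ k * deg K →
      (layer K M (p ^ j)).ncard * (p ^ (k - j) - 1) * X.defect K ≤
        p ^ (k - j) * ∑ᶠ K' ∈ layer K M (p ^ j), X.defect K' +
          (layer K M (p ^ j)).ncard * X.defect M) ∧
    -- 2. failures spread
    (X.ordz K ≠ X.chi K → ∀ j k : ℕ, j < k →
      (p ^ k * deg K ≤ deg M →
        (X.failing M (p ^ j)).Nonempty ∨ (X.failing M (p ^ k)).Nonempty) ∧
      ∃ N : ℕ, (∀ K' ∈ layer K M (p ^ k), (layer K K' (p ^ j)).ncard = N) ∧
        (layer K M (p ^ j)).ncard * (layer K M (p ^ k)).ncard ≤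
          (layer K M (p ^ j)).ncard * (X.failing M (p ^ k)).ncard +
            N * (layer K M (p ^ k)).ncard * (X.failing M (p ^ j)).ncard) ∧
    -- 3. most fields of two layers suffice
    (∀ j k N : ℕ, j < k → p ^ k * deg K ≤ deg M →
      (∀ K' ∈ layer K M (p ^ k), (layer K K' (p ^ j)).ncard = N) →
      (N + 1) * (X.failing M (p ^ j)).ncard < (layer K M (p ^ j)).ncard →
      (N + 1) * (X.failing M (p ^ k)).ncard < (layer K M (p ^ k)).ncard →
      X.ordz K = X.chi K) := by
  have hres := X.respects hp hM
  have hlaw : X.ordz K ≠ X.chi K → ∀ j k : ℕ, j < k →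
      ∃ N : ℕ, (∀ K' ∈ layer K M (p ^ k), (layer K K' (p ^ j)).ncard = N) ∧
        (layer K M (p ^ j)).ncard * (layer K M (p ^ k)).ncard ≤
          (layer K M (p ^ j)).ncard * (X.failing M (p ^ k)).ncard +
            N * (layer K M (p ^ k)).ncard * (X.failing M (p ^ j)).ncard := by
    intro h j k hjk
    obtain ⟨N, hN, h1⟩ := perm_law hp hM hres (X.nsmul_ne h) hjk
    rw [X.bad_eq, X.bad_eq] at h1
    exact ⟨N, hN, h1⟩
  refine ⟨fun j k hjk hd => int_mean hp hM hres hjk hd, fun h j k hjk => ⟨fun hd => ?_,
    hlaw h j k hjk⟩, fun j k N hjk hd hN h1 h2 => ?_⟩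
  · rcases two_layers hp hM hres (X.nsmul_ne h) hjk hd with ⟨L, hL, hL'⟩ | ⟨L, hL, hL'⟩
    · exact Or.inl ⟨L, hL, (X.diff_ne L).1 hL'⟩
    · exact Or.inr ⟨L, hL, (X.diff_ne L).1 hL'⟩
  · by_contra hcon
    obtain ⟨N', hN', h3⟩ := hlaw hcon j k hjk
    obtain ⟨L, hL⟩ := layer_nonempty' hp hM le_rfl hd
    have h4 : N' = N := (hN' L hL).symm.trans (hN L hL)
    rw [h4] at h3
    rcases alt_of_ineq h3 with h5 | h5 <;> omega

end Pool.Agent.Results.MP_f3836a_nt.AlmostAllFields
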