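import Pool.Agent.X252.SLC

/-!
# Soulé's formula for the quotients of a scheme by a finite group

Let a finite group `G` act on a scheme `Y` as in the problem, of Krull dimension `d`, such that all
quotients `Y/H`, `H ≤ G`, are regular; for example `G` acts freely (then `Y → Y/G` is an étale Galois
covering), or `Y` is the base change to `O_L` of a smooth scheme over `O_K` and `G = Gal(L/K)`. For
`H ≤ G` let `ordz H = ord_{s=0} ζ(Y/H, s)` and `chi H = ∑ (-1)^{i+1} dim H^{2d-i}(Y/H, ℚ(d))`, so that
Soulé's formula for `Y/H` is `ordz H = chi H`. The only input are the relations between permutation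
characters (`QuotientOrders`).

1. The formula holds for `Y/H` if it holds for `Y/C` for all cyclic subgroups `C` of `H`.
2. If `G` is not cyclic and the formula fails for `Y/G`, it fails for `Y/C` for a cyclic `C`.
3. A common divisor of the defects of the `Y/C`, `C ≤ H` cyclic, divides `|H|` times the defect of `Y/H`.
4. The formula for `Y/H` holds modulo `m` if it holds modulo `m` for all `Y/U`, `U ≤ H`
   `p`-hyperelementary for a prime divisor `p` of `m`.
5. Modulo `m`, the `Y/C` and `Y'/C'` with `C`, `C'` cyclic suffice for `X`, if `X` is the quotient of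
   `Y` and `Y'` by groups of coprime orders.
-/

set_option autoImplicit false

namespace Pool.Agent.Results.MP_f3836a_nt.GaloisCovers

open Pool.Agent.X252.SL Pool.Agent.H302R3

/-- **The two sides of Soulé's formula for the quotients `Y/H`**: `ordz H = ord_{s=0} ζ(Y/H, s)`,
`chi H = ∑ (-1)^{i+1} dim H^{2d-i}(Y/H, ℚ(d))`. Both satisfy the relations between the permutation
characters of `G`: the first since `ζ(Y/H, s)` is the `L`-function of the representation of `G` on the
cosets of `H`, the second since the rational motivic cohomology of `Y/H` is the part of the one of `Y`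
fixed by `H`. -/
structure QuotientOrders (G : Type) [Group G] (ordz chi : Subgroup G → ℤ) : Prop where
  ordz_rel : RespZ ordz
  chi_rel : RespZ chi

lemma sub_rel {G : Type} [Group G] {r s : Subgroup G → ℤ} (hr : RespZ r) (hs : RespZ s) :
    RespZ fun H => r H - s H := by
  intro l hl
  have h1 := hr l hl
  have h2 := hs l hl
  have h3 : (l.sum fun M n => n * (r M - s M)) =
      (l.sum fun M n => n * r M) - l.sum fun M n => n * s M := by
    unfold Finsupp.sum
    rw [← Finset.sum_sub_distrib]
    exact Finset.sum_congr rfl fun M _ => by ring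
  rw [h3, h1, h2, sub_zero]

/-- **Soulé's formula for the quotients by a finite group.** -/
theorem result (G : Type) [Group G] [Finite G] (ordz chi : Subgroup G → ℤ)
    (Y : QuotientOrders G ordz chi) :
    -- 1. cyclic subgroups
    (∀ H : Subgroup G, (∀ C : Subgroup G, C ≤ H → IsCyclic C → ordz C = chi C) →
      ordz H = chi H) ∧
    -- 2. failures spread
    (¬ IsCyclic G → ordz ⊤ ≠ chi ⊤ → ∃ C : Subgroup G, C ≠ ⊤ ∧ IsCyclic C ∧ ordz C ≠ chi C) ∧
    -- 3. divisors of the defects
    (∀ (H : Subgroup G) (m : ℤ), (∀ C : Subgroup G, C ≤ H → IsCyclic C → m ∣ ordz C - chi C) →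
      m ∣ (Nat.card H : ℤ) * (ordz H - chi H)) ∧
    -- 4. hyperelementary subgroups
    (∀ (H : Subgroup G) (m : ℤ), m ≠ 0 → (∀ U : Subgroup G, U ≤ H →
      (∃ p : ℕ, p.Prime ∧ (p : ℤ) ∣ m ∧ HypP p U) → m ∣ ordz U - chi U) →
      m ∣ ordz H - chi H) ∧
    -- 5. two groups of coprime orders
    (∀ (G' : Type) [Group G'] [Finite G'] (ordz' chi' : Subgroup G' → ℤ),
      QuotientOrders G' ordz' chi' → ordz ⊤ = ordz' ⊤ → chi ⊤ = chi' ⊤ →
      (Nat.card G).Coprime (Nat.card G') → ∀ m : ℤ,
      (∀ C : Subgroup G, IsCyclic C → m ∣ ordz C - chi C) →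
      (∀ C : Subgroup G', IsCyclic C → m ∣ ordz' C - chi' C) → m ∣ ordz ⊤ - chi ⊤) := by
  have hd := sub_rel Y.ordz_rel Y.chi_rel
  have h3 : ∀ (H : Subgroup G) (m : ℤ),
      (∀ C : Subgroup G, C ≤ H → IsCyclic C → m ∣ ordz C - chi C) →
      m ∣ (Nat.card H : ℤ) * (ordz H - chi H) := fun H m h => respZ_cyc hd H m h
  have h1 : ∀ H : Subgroup G, (∀ C : Subgroup G, C ≤ H → IsCyclic C → ordz C = chi C) →
      ordz H = chi H := by
    intro H h
    have h4 := h3 H 0 fun C hC hc => by rw [h C hC hc, sub_self]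
    rw [zero_dvd_iff, mul_eq_zero] at h4
    rcases h4 with h4 | h4
    · exact absurd h4 (by exact_mod_cast Nat.card_pos.ne')
    · exact sub_eq_zero.1 h4
  refine ⟨h1, fun hG hne => ?_, h3, fun H m hm h => respZ_hyp hd hm H h,
    fun G' _ _ ordz' chi' Y' ho hc hco m h h' => ?_⟩
  · by_contra hcon
    push Not at hcon
    refine hne (h1 ⊤ fun C _ hc => hcon C (fun h0 => hG ?_) hc)
    subst h0
    exact isCyclic_of_surjective (Subgroup.topEquiv : (⊤ : Subgroup G) ≃* G)
      (MulEquiv.surjective _)
  · have h5 := h3 ⊤ m fun C _ => h C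
    have h6 := respZ_cyc (sub_rel Y'.ordz_rel Y'.chi_rel) ⊤ m fun C _ => h' C
    simp only [← ho, ← hc] at h6
    rw [Subgroup.card_top] at h5 h6
    obtain ⟨a, b, hab⟩ : IsCoprime (Nat.card G : ℤ) (Nat.card G' : ℤ) :=
      Nat.isCoprime_iff_coprime.2 hco
    have h7 : ordz ⊤ - chi ⊤ = a * ((Nat.card G : ℤ) * (ordz ⊤ - chi ⊤)) +
        b * ((Nat.card G' : ℤ) * (ordz ⊤ - chi ⊤)) := by
      linear_combination (-(ordz ⊤ - chi ⊤)) * hab
    rw [h7]
    exact dvd_add (h5.mul_left _) (h6.mul_left _)

end Pool.Agent.Results.MP_f3836a_nt.GaloisCovers
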