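import Pool.Agent.X303.Five
import Pool.Agent.X303.Arith.Base
import Pool.Agent.X303.Arith.Model

/-!
# The conjecture of Soulé at `s = 0` depends only on the generic fibre

`Schemes V` are data of the schemes `X : V` of finite type over `ℤ`: the closed points, the orders of
their residue fields and the groups `M X a b = CH_b(X, a - 2 b) ⊗ ℚ`, indexed by dimension. So for a regular
connected scheme `X`, flat and projective over `ℤ`, of dimension `d`, the group
`H^(2 d - i)(X, ℚ(d)) = CH^d(X, i) ⊗ ℚ = CH_0(X, i) ⊗ ℚ` is `M X i 0`, and `SouleAt S X 0` is the statement of Q1
for `X`: if the zeta function has a meromorphic continuation to a neighbourhood of `s = 0` (to a connected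
open set containing `0` and a right half-plane) and the groups `H^j(X, ℚ(d))` are finite-dimensional, and zero
for almost all `j`, then the order of the zeta function at `s = 0` is `- ∑ (-1) ^ i dim H^(2 d - i)(X, ℚ(d))`.

Two models `X` and `X'` of the same smooth projective variety over `ℚ` are isomorphic over `ℤ[1/N]` for
some `N`: there are closed subschemes `Z` of `X` and `Z'` of `X'`, finite unions of fibres, with the same
open complement `U`. The theorem: let `X` and `X'` be any two schemes of finite type over `ℤ` with closed
subschemes `Z` and `Z'`, and the same complement `U`, and suppose that `Z` and `Z'` belong to the class
`Generated` of the schemes of finite type over `ℤ` generated, by localisation triples and affine bundles, by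

* the schemes over finite fields which belong to the class `FM.Generated` that is generated by **all
  abelian varieties of dimension at most five** and **all abelian varieties which over an algebraic
  closure are isogenous to products of elliptic curves and abelian surfaces**, with any number of factors
  (`IsFiveOrSurfaces`), by direct summands of finite sums of twists of motives and by localisation triples;
* the spectra of the rings of integers of number fields.

Then the conjecture of Soulé holds for `X` if and only if it holds for `X'`; and this is so at all
integers `s = b`. For instance the conjecture is not changed if a regular model is blown up in a regular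
subscheme which is a product of curves of genus at most two over a finite field; and for a variety over
`ℚ` it holds for one model if and only if it holds for all models, as far as the fibres of bad reduction are in
the class (the components and their intersections are, for example, products of projective spaces and
curves of genus at most two). For all models this would follow from the conjectures of Tate and Beilinson.

Properties of the theory of cycles that are used (`IsChowS`, `IsMotivic`): Poincaré duality, the formal
properties of correspondences, the nilpotence of homologically trivial correspondences (Kimura), the
operation of the Frobenius endomorphism on higher Chow groups, the vanishing of the higher rational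
`K`-groups of a finite field (Quillen), and the algebraicity of the classes in `AlgS` (theorems of Tate,
Markman and Ramón Marí). The Tate conjecture for these abelian varieties is proved in the starting files.
-/

set_option autoImplicit false

namespace Pool.Agent.Results.MP_f3836a_nt.IndependenceOfModel

open Pool.Agent.W495.TA Pool.Agent.W495.FM Pool.Agent.Y137.GN Pool.Agent.X303.TBDual
  Pool.Agent.X303.Arith

/-- `X` is the spectrum of the ring of integers of a number field, or a scheme over a finite field in the
class generated by all abelian varieties of dimension at most five and all products of elliptic curves
and abelian surfaces. -/
def IsBasic {V : Type} (S : Schemes V) (X : V) : Prop :=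
  IsNumberRing S X ∨ ∃ (p : ℕ) (_ : Fact p.Prime) (ν : PadicAlgCl p ≃+* ℂ) (W : Type)
    (T : Homology ℂ W) (X' : W), IsHomology T ∧
      Pool.Agent.W495.FM.Generated T (IsFiveOrSurfaces p ν T) X' ∧ IsFinite S X T X'

/-- **The conjecture of Soulé does not depend on the model**, for models with fibres of bad reduction in
the class generated by basic schemes. -/
theorem result (V : Type) (S : Schemes V) (hS : ∀ X, Converges S X) (Z X Z' X' U : V)
    (h : IsTriple S Z X U) (h' : IsTriple S Z' X' U)
    (hZ : Pool.Agent.X303.Arith.Generated S (IsBasic S) Z)
    (hZ' : Pool.Agent.X303.Arith.Generated S (IsBasic S) Z') (b : ℤ) :
    SouleAt S X b ↔ SouleAt S X' b := by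
  have key : ∀ Y, Pool.Agent.X303.Arith.Generated S (IsBasic S) Y → BlochSoule S Y := fun Y hY =>
    generated hS (fun Y hY => by
      rcases hY with hY | ⟨p, hp, ν, W, T, Y', hT, h1, h2⟩
      · exact numberRing hY
      · exact finiteField hT (tb_five hT h1) h2) hY
  exact (soule_iff_opened h (hS Z) (hS U) (key Z hZ) b).trans
    (soule_iff_opened h' (hS Z') (hS U) (key Z' hZ') b).symm

end Pool.Agent.Results.MP_f3836a_nt.IndependenceOfModel
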