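import Pool.Agent.X156.GL.Sch

/-!
# Soulé's conjecture at `s = 0`: a criterion in terms of absolutely convergent sums over the closed points

`X` is a regular connected scheme, flat and projective over `ℤ`, of dimension `d` (used are only: the residue
fields of the closed points are finite, and `∑ N(x)^{-σ} < ∞` for `σ > d`). Suppose that `ζ(X, s)` continues to a
function which is meromorphic at the points of the real segment `[0, d]`; there is no hypothesis on the zeros, no
growth condition and no functional equation. For a fixed `γ > π/2` put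

`S(T) = - ∑_x ∑_{k ≥ 1} exp(iγ k log N(x) / T) / (k Γ(1 + k log N(x) / T))`,  `T > 0`,

the sum over the closed points of `X`. It converges absolutely for all `T > 0`, although the point `s = 0` is at the
distance `d` from the half plane of convergence of the Euler product. Then, as `T → ∞`:

1. `S(T) = m (log T - Λ(γ)) - r₀ + O(1/T)`, where `m` is the order of `ζ(X, s)` at `s = 0`, `exp(r₀)` is its leading
   coefficient at `s = 0` and `Λ(γ)` is an explicit constant.
2. SOULÉ'S CONJECTURE for `X`, that is `ord_{s=0} ζ(X, s) = ∑_i (-1)^{i+1} dim V i` with the finite dimensional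
   vector spaces `V i = H^{2d-i}(X, ℚ(d))`, which are zero for `i ≥ n`, holds if and only if
   `Re S(T) / log T → ∑_i (-1)^{i+1} dim V i`; if and only if `Re S(T) - ∑_i (-1)^{i+1} dim V i · log T` is bounded as
   `T → ∞`.
3. Each of the two inequalities between the two sides is equivalent to a one-sided bound for
   `Re S(T) - ∑_i (-1)^{i+1} dim V i · log T`.
4. The order is as conjectured and the leading coefficient (the special value `ζ*(X, 0)`) is `B` if and only if
   `exp(S(T)) / T^e → exp(-e Λ(γ)) / B`, where `e = ∑_i (-1)^{i+1} dim V i`.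
-/

set_option autoImplicit false

open Filter Topology Asymptotics AlgebraicGeometry Pool.Agent.X156.GL.Sch

namespace Pool.Agent.Results.MP_f3836a_nt.OrderAtZeroFromClosedPoints

/-- `∑_{i < n} (-1)^{i+1} dim V i`. -/
noncomputable def dimSum (V : ℕ → Type) [∀ i, AddCommGroup (V i)] [∀ i, Module ℚ (V i)] (n : ℕ) : ℤ :=
  ∑ i ∈ Finset.range n, (-1) ^ (i + 1) * (Module.finrank ℚ (V i) : ℤ)

/-- **Soulé's conjecture at `s = 0` and rotated sums over closed points.** -/
theorem result (X : Scheme.{0}) (d : ℕ) (hX : IsArithmetic X d) (Z : ℂ → ℂ) (hZ : IsZeta X d 0 Z)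
    (γ : ℝ) (hγ : Real.pi / 2 < γ) :
    -- absolute convergence
    (∀ T : ℝ, 0 < T → Summable fun x => ‖term X 0 γ T x‖) ∧
    -- 1. the asymptotic formula
    (∃ (m : ℤ) (r₀ : ℂ), meromorphicOrderAt Z 0 = m ∧
      meromorphicTrailingCoeffAt Z 0 = Complex.exp r₀ ∧
      (fun T : ℝ => S X 0 γ T - (m * (Real.log T - Lambda γ) - r₀)) =O[atTop] (fun T : ℝ => 1 / T)) ∧
    (∀ (n : ℕ) (V : ℕ → Type) [∀ i, AddCommGroup (V i)] [∀ i, Module ℚ (V i)],
      -- 2. the order
      (meromorphicOrderAt Z 0 = dimSum V n ↔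
        Tendsto (fun T : ℝ => (S X 0 γ T).re / Real.log T) atTop (𝓝 (dimSum V n : ℝ))) ∧
      (meromorphicOrderAt Z 0 = dimSum V n ↔
        ∃ c : ℝ, ∀ᶠ T : ℝ in atTop, |(S X 0 γ T).re - dimSum V n * Real.log T| ≤ c) ∧
      -- 3. the inequalities
      (meromorphicOrderAt Z 0 ≤ dimSum V n ↔
        ∃ c : ℝ, ∀ᶠ T : ℝ in atTop, (S X 0 γ T).re - dimSum V n * Real.log T ≤ c) ∧
      (dimSum V n ≤ meromorphicOrderAt Z 0 ↔
        ∃ c : ℝ, ∀ᶠ T : ℝ in atTop, -c ≤ (S X 0 γ T).re - dimSum V n * Real.log T) ∧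
      -- 4. the order and the special value
      (∀ B : ℂ, B ≠ 0 →
        ((meromorphicOrderAt Z 0 = dimSum V n ∧ meromorphicTrailingCoeffAt Z 0 = B) ↔
          Tendsto (fun T : ℝ => Complex.exp (S X 0 γ T) / (T : ℂ) ^ dimSum V n) atTop
            (𝓝 (Complex.exp (-(dimSum V n * Lambda γ)) / B))))) := by
  obtain ⟨m, r₀, h1, h2, h3⟩ := law hX hZ hγ
  refine ⟨fun T hT => summable hX 0 γ hT, ⟨m, r₀, h1, h2, h3⟩, fun n V _ _ => ?_⟩
  set e := dimSum V n with he
  have hle : meromorphicOrderAt Z 0 ≤ e ↔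
      ∃ c : ℝ, ∀ᶠ T : ℝ in atTop, (S X 0 γ T).re - e * Real.log T ≤ c := by
    have h4 : meromorphicOrderAt Z 0 ≤ e ↔ m ≤ e := by rw [h1]; exact_mod_cast Iff.rfl
    rw [h4, h3.le_iff]
    refine exists_congr fun c => eventually_congr (Eventually.of_forall fun T => ?_)
    constructor <;> intro h <;> linarith
  have hge : e ≤ meromorphicOrderAt Z 0 ↔
      ∃ c : ℝ, ∀ᶠ T : ℝ in atTop, -c ≤ (S X 0 γ T).re - e * Real.log T := by
    have h4 : e ≤ meromorphicOrderAt Z 0 ↔ e ≤ m := by rw [h1]; exact_mod_cast Iff.rfl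
    rw [h4, h3.ge_iff]
    refine exists_congr fun c => eventually_congr (Eventually.of_forall fun T => ?_)
    constructor <;> intro h <;> linarith
  refine ⟨?_, ?_, hle, hge, fun B hB => ?_⟩
  · rw [h1, ← h3.order_iff]
    exact_mod_cast Iff.rfl
  · rw [le_antisymm_iff, hle, hge]
    constructor
    · rintro ⟨⟨c, hc⟩, ⟨c', hc'⟩⟩
      refine ⟨max c c', ?_⟩
      filter_upwards [hc, hc'] with T h4 h5
      rw [abs_le]
      exact ⟨by have := le_max_right c c'; linarith, h4.trans (le_max_left _ _)⟩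
    · rintro ⟨c, hc⟩
      exact ⟨⟨c, hc.mono fun T hT => (abs_le.1 hT).2⟩, ⟨c, hc.mono fun T hT => (abs_le.1 hT).1⟩⟩
  · rw [h1, h2, ← h3.lead_iff e hB]
    exact and_congr_left fun _ => by exact_mod_cast Iff.rfl

end Pool.Agent.Results.MP_f3836a_nt.OrderAtZeroFromClosedPoints
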